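import Mathlib

/-!
# Strict positivity on the unit sphere of `ℓ²` does not give a symmetric Polya certificate

Power sums `p_2, p_4, p_6, ...` are the variables `X 0, X 1, X 2, ...` of `MvPolynomial ℕ ℝ`
(the variable `X j` stands for `p_{2(j+1)}`).  For such a polynomial `g`, the truncation to `n`
variables of the even symmetric function `f = g(p_2, p_4, ...)` is
`aeval (fun j => psum (Fin n) ℝ (2 * (j + 1))) g`.

We take `f = p_2^2 (4 p_4 - p_2^2)^2 + (2 p_6 - p_2 p_4)^2`, homogeneous of degree `12`.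
-/

set_option autoImplicit false

open MvPolynomial

namespace Pool.Agent.Results.MP_2f3180_ag.PolyaNegative

/-- `f = p_2^2 (4 p_4 - p_2^2)^2 + (2 p_6 - p_2 p_4)^2` in the variables
`X 0 = p_2`, `X 1 = p_4`, `X 2 = p_6`. -/
noncomputable def g : MvPolynomial ℕ ℝ :=
  X 0 ^ 2 * (C 4 * X 1 - X 0 ^ 2) ^ 2 + (C 2 * X 2 - X 0 * X 1) ^ 2

lemma g_homog : g.IsWeightedHomogeneous (fun j => 2 * (j + 1)) 12 := by
  have h0 : (X 0 : MvPolynomial ℕ ℝ).IsWeightedHomogeneous (fun j => 2 * (j + 1)) 2 := by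
    simpa using isWeightedHomogeneous_X ℝ (fun j : ℕ => 2 * (j + 1)) 0
  have h1 : (X 1 : MvPolynomial ℕ ℝ).IsWeightedHomogeneous (fun j => 2 * (j + 1)) 4 := by
    simpa using isWeightedHomogeneous_X ℝ (fun j : ℕ => 2 * (j + 1)) 1
  have h2 : (X 2 : MvPolynomial ℕ ℝ).IsWeightedHomogeneous (fun j => 2 * (j + 1)) 6 := by
    simpa using isWeightedHomogeneous_X ℝ (fun j : ℕ => 2 * (j + 1)) 2
  have h0s : ((X 0 : MvPolynomial ℕ ℝ) ^ 2).IsWeightedHomogeneous (fun j => 2 * (j + 1)) 4 :=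
    h0.pow 2
  have a : (X 0 ^ 2 * (C 4 * X 1 - X 0 ^ 2) ^ 2 :
      MvPolynomial ℕ ℝ).IsWeightedHomogeneous (fun j => 2 * (j + 1)) 12 :=
    h0s.mul (((h1.C_mul 4).sub h0s).pow 2)
  have b : ((C 2 * X 2 - X 0 * X 1) ^ 2 :
      MvPolynomial ℕ ℝ).IsWeightedHomogeneous (fun j => 2 * (j + 1)) 12 :=
    ((h2.C_mul 2).sub (h0.mul h1)).pow 2
  exact a.add b

lemma g_eval (v : ℕ → ℝ) :
    eval v g = v 0 ^ 2 * (4 * v 1 - v 0 ^ 2) ^ 2 + (2 * v 2 - v 0 * v 1) ^ 2 := by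
  simp [g]

lemma trunc_eval (n : ℕ) (x : Fin n → ℝ) :
    eval x (aeval (fun j => psum (Fin n) ℝ (2 * (j + 1))) g : MvPolynomial (Fin n) ℝ)
      = eval (fun j => ∑ i, x i ^ (2 * (j + 1))) g := by
  simp [g, psum]

/-- positivity on the unit sphere of `ℓ²` -/
lemma g_pos (x : ℕ → ℝ) (hx' : HasSum (fun i => x i ^ 2) 1) :
    0 < eval (fun j => ∑' i, (x i) ^ (2 * (j + 1))) g := by
  have hx : ∑' i, (x i) ^ 2 = 1 := hx'.tsum_eq
  set y : ℕ → ℝ := fun i => (x i) ^ 2 with hy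
  have hy0 : ∀ i, 0 ≤ y i := fun i => sq_nonneg _
  have hs1 : Summable y := hx'.summable
  have hle : ∀ i, y i ≤ 1 := fun i => by
    rw [← hx]; exact hs1.le_tsum i (fun j _ => hy0 j)
  have hs2 : Summable (fun i => y i ^ 2) :=
    Summable.of_nonneg_of_le (fun i => sq_nonneg _)
      (fun i => by nlinarith [hy0 i, hle i]) hs1
  have hs3 : Summable (fun i => y i ^ 3) :=
    Summable.of_nonneg_of_le (fun i => pow_nonneg (hy0 i) 3)
      (fun i => by nlinarith [hy0 i, hle i, mul_nonneg (hy0 i) (hy0 i)]) hs2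
  rw [g_eval]
  have e0 : (∑' i, (x i) ^ (2 * (0 + 1))) = 1 := by simpa using hx
  have e1 : (∑' i, (x i) ^ (2 * (1 + 1))) = ∑' i, y i ^ 2 := by
    congr 1; ext i; simp only [hy]; ring
  have e2 : (∑' i, (x i) ^ (2 * (2 + 1))) = ∑' i, y i ^ 3 := by
    congr 1; ext i; simp only [hy]; ring
  simp only [e0, e1, e2]
  set P := ∑' i, y i ^ 2
  set Q := ∑' i, y i ^ 3
  by_contra hcon
  have h1 : (4 * P - 1) = 0 := by nlinarith [sq_nonneg (4 * P - 1), sq_nonneg (2 * Q - P)]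
  have h2 : 2 * Q - P = 0 := by nlinarith [sq_nonneg (4 * P - 1), sq_nonneg (2 * Q - P)]
  have hP : P = 1 / 4 := by linarith
  have hyh : ∀ i, y i ≤ 1 / 2 := fun i => by
    have : y i ^ 2 ≤ P := hs2.le_tsum i (fun j _ => sq_nonneg _)
    nlinarith [hy0 i]
  have hs4 : Summable (fun i => y i ^ 2 - 2 * y i ^ 3) := hs2.sub (hs3.mul_left 2)
  have ht : ∑' i, (y i ^ 2 - 2 * y i ^ 3) = 0 := by
    rw [hs2.tsum_sub (hs3.mul_left 2), tsum_mul_left]
    change P - 2 * Q = 0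
    linarith
  have hnn : ∀ i, 0 ≤ y i ^ 2 - 2 * y i ^ 3 := fun i => by
    nlinarith [hy0 i, hyh i, mul_nonneg (hy0 i) (hy0 i)]
  have hz : ∀ i, y i ^ 2 - 2 * y i ^ 3 = 0 := by
    intro i
    have := (hs4.hasSum_iff.mpr ht)
    have h3 := (hasSum_zero_iff_of_nonneg hnn).1 this
    exact congrFun h3 i
  have hlin : ∀ i, y i = 2 * y i ^ 2 := fun i => by
    have h := hz i
    have : y i ^ 2 * (1 - 2 * y i) = 0 := by linarith
    rcases mul_eq_zero.1 this with h' | h'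
    · have : y i = 0 := by simpa using h'
      simp [this]
    · have : y i = 1 / 2 := by linarith
      rw [this]; norm_num
  have : (1 : ℝ) = 2 * P := by
    rw [← hx, ← tsum_mul_left]
    exact tsum_congr hlin
  rw [hP] at this
  norm_num at this

lemma eval_msymm_mono {n N : ℕ} (μ : N.Partition) (x x' : Fin n → ℝ) (h0 : ∀ i, 0 ≤ x' i)
    (h : ∀ i, x' i ≤ x i) :
    eval x' (msymm (Fin n) ℝ μ) ≤ eval x (msymm (Fin n) ℝ μ) := by
  unfold msymm
  rw [map_sum, map_sum]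
  apply Finset.sum_le_sum
  intro s _
  rw [map_multiset_prod, map_multiset_prod, Multiset.map_map, Multiset.map_map]
  apply Multiset.prod_map_le_prod_map₀
  · intro i _; simpa using h0 i
  · intro i _; simpa using h i

/-- **Q1 of the problem has a negative answer.**  There is an even symmetric function `f`,
homogeneous of degree `2 * d`, strictly positive on the unit sphere of `ℓ²`, such that for every
`k` the function `p_2 ^ k * f` is not a combination with non-negative coefficients of monomial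
symmetric functions `m_μ`, `μ` a partition of `2 * d + 2 * k`; this fails already for the
truncations to some finite number `n` of variables. -/
theorem result :
    ∃ (d : ℕ) (g : MvPolynomial ℕ ℝ),
      g.IsWeightedHomogeneous (fun j => 2 * (j + 1)) (2 * d) ∧
      (∀ x : ℕ → ℝ, HasSum (fun i => x i ^ 2) 1 →
        0 < eval (fun j => ∑' i, x i ^ (2 * (j + 1))) g) ∧
      ∀ k : ℕ, ∃ n : ℕ, ¬ ∃ c : (2 * d + 2 * k).Partition → ℝ, (∀ μ, 0 ≤ c μ) ∧
        psum (Fin n) ℝ 2 ^ k * aeval (fun j => psum (Fin n) ℝ (2 * (j + 1))) g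
          = ∑ μ, c μ • msymm (Fin n) ℝ μ := by
  refine ⟨6, g, g_homog, g_pos, ?_⟩
  intro k
  -- number of small coordinates
  obtain ⟨m, hm8, hm⟩ : ∃ m : ℕ, 8 ≤ m ∧ (2 : ℝ) * 256 * 2 ^ k < m := by
    obtain ⟨m, hm⟩ := exists_nat_gt ((2 : ℝ) * 256 * 2 ^ k)
    exact ⟨max m 8, le_max_right _ _, lt_of_lt_of_le hm (by exact_mod_cast le_max_left _ _)⟩
  have hmR : (8 : ℝ) ≤ m := by exact_mod_cast hm8
  have hm0 : (0 : ℝ) < m := by linarith
  refine ⟨m + 1, ?_⟩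
  rintro ⟨c, hc, heq⟩
  set a : ℝ := √(1 / 2) with ha
  set b : ℝ := √(1 / (2 * m)) with hb
  have ha2 : a ^ 2 = 1 / 2 := Real.sq_sqrt (by norm_num)
  have hb2 : b ^ 2 = 1 / (2 * m) := Real.sq_sqrt (by positivity)
  have ha0 : 0 ≤ a := Real.sqrt_nonneg _
  have hb0 : 0 ≤ b := Real.sqrt_nonneg _
  set x : Fin (m + 1) → ℝ := Fin.cons a (fun _ => b) with hx
  set x' : Fin (m + 1) → ℝ := Fin.cons 0 (fun _ => b) with hx'
  have hx'0 : ∀ i, 0 ≤ x' i := by
    intro i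
    refine Fin.cases ?_ (fun i => ?_) i <;> simp [hx', hb0]
  have hxx' : ∀ i, x' i ≤ x i := by
    intro i
    refine Fin.cases ?_ (fun i => ?_) i <;> simp [hx', hx, ha0]
  have hmono : eval x' (psum (Fin (m+1)) ℝ 2 ^ k *
        aeval (fun j => psum (Fin (m+1)) ℝ (2 * (j + 1))) g)
      ≤ eval x (psum (Fin (m+1)) ℝ 2 ^ k *
        aeval (fun j => psum (Fin (m+1)) ℝ (2 * (j + 1))) g) := by
    rw [heq, map_sum, map_sum]
    apply Finset.sum_le_sum
    intro μ _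
    rw [smul_eval, smul_eval]
    exact mul_le_mul_of_nonneg_left (eval_msymm_mono μ x x' hx'0 hxx') (hc μ)
  rw [map_mul, map_mul, map_pow, map_pow, trunc_eval, trunc_eval, g_eval, g_eval] at hmono
  -- power sums at x
  have key : ∀ (t : ℝ) (j : ℕ), (∑ i : Fin (m + 1), (Fin.cons t (fun _ => b) : Fin (m+1) → ℝ) i ^ (2 * (j + 1)))
      = (t ^ 2) ^ (j + 1) + m * (1 / (2 * m)) ^ (j + 1) := by
    intro t j
    rw [Fin.sum_univ_succ]
    simp only [Fin.cons_zero, Fin.cons_succ, Finset.sum_const, Finset.card_univ, Fintype.card_fin,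
      nsmul_eq_mul]
    rw [pow_mul, pow_mul, hb2]
  have keyp : ∀ t : ℝ, eval (Fin.cons t (fun _ => b) : Fin (m+1) → ℝ) (psum (Fin (m+1)) ℝ 2)
      = t ^ 2 + 1 / 2 := by
    intro t
    have := key t 0
    simp only [psum, map_sum, map_pow, eval_X]
    rw [show (2 : ℕ) = 2 * (0 + 1) from rfl, this]
    have h1 : (m : ℝ) * (1 / (2 * m)) = 1 / 2 := by
      have : (m : ℝ) ≠ 0 := hm0.ne'
      field_simp
    simp only [zero_add, pow_one, h1]
  simp only [hx, hx', key, keyp, ha2] at hmono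
  have hmi : (m : ℝ)⁻¹ ≤ 1 / 8 := by
    rw [inv_le_comm₀ hm0 (by norm_num)]; simpa using hmR
  have hmi0 : 0 < (m : ℝ)⁻¹ := inv_pos.mpr hm0
  set r : ℝ := (m : ℝ)⁻¹ with hr
  have hmr : (m : ℝ) * r = 1 := mul_inv_cancel₀ hm0.ne'
  have hrm : (1 : ℝ) / (2 * m) = r / 2 := by
    rw [hr, one_div, mul_inv]; ring
  have e1 : (m : ℝ) * (1 / (2 * m)) ^ (0 + 1) = 1 / 2 := by
    rw [hrm]; linear_combination (1 / 2) * hmr
  have e2 : (m : ℝ) * (1 / (2 * m)) ^ (1 + 1) = r / 4 := by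
    rw [hrm]; linear_combination (r / 4) * hmr
  have e3 : (m : ℝ) * (1 / (2 * m)) ^ (2 + 1) = r ^ 2 / 8 := by
    rw [hrm]; linear_combination (r ^ 2 / 8) * hmr
  rw [e1, e2, e3] at hmono
  have hk : (1 / 2 : ℝ) ^ k * 2 ^ k = 1 := by rw [← mul_pow]; norm_num
  have hkpos : (0 : ℝ) < 2 ^ k := by positivity
  have hkpos' : (0 : ℝ) < (1 / 2 : ℝ) ^ k := by positivity
  norm_num at hmono
  have hr2 : 512 * 2 ^ k * r < 1 := by
    have := mul_lt_mul_of_pos_right hm hmi0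
    rw [hmr] at this
    linarith
  -- upper bound for the value at x
  have hup : (1 / 2 + r / 4 * 1 : ℝ) = 1 / 2 + r / 4 := by ring
  have hub : (4 * (1 / 4 + r / 4) - 1) ^ 2 + (2 * (1 / 8 + r ^ 2 / 8) - (1 / 4 + r / 4)) ^ 2
      ≤ 2 * r := by
    nlinarith [sq_nonneg r, hmi, hmi0, mul_nonneg hmi0.le hmi0.le,
      mul_nonneg (mul_nonneg hmi0.le hmi0.le) hmi0.le, mul_nonneg (mul_nonneg hmi0.le hmi0.le) (mul_nonneg hmi0.le hmi0.le)]
  have hlb : (1 : ℝ) / 256 ≤ 1 / 4 * (r - 1 / 4) ^ 2 := by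
    nlinarith
  have hsq : 0 ≤ (r ^ 2 / 4 - 1 / 2 * (r / 4)) ^ 2 := sq_nonneg _
  have hfin : (1 / 2 : ℝ) ^ k * (1 / 256) ≤ 2 * r := by
    refine le_trans ?_ (le_trans hmono ?_)
    · apply mul_le_mul_of_nonneg_left _ hkpos'.le
      nlinarith
    · nlinarith
  have : (1 / 2 : ℝ) ^ k * (1 / 256) * 2 ^ k ≤ 2 * r * 2 ^ k :=
    mul_le_mul_of_nonneg_right hfin hkpos.le
  nlinarith

end Pool.Agent.Results.MP_2f3180_ag.PolyaNegative
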