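import Mathlib

/-!
# Strict positivity on the unit sphere of `ℓ²` does not give any-dimensional sums of squares

Power sums `p_2, p_3, p_4, ...` are the variables `X 0, X 1, X 2, ...` of `MvPolynomial ℕ ℝ`
(the variable `X j` stands for `p_{j+2}`).  The symmetric function
`f = p_3^14 + p_3^4 p_5^6 + p_7^6 - 3 p_3^6 p_5^2 p_7^2 + p_42` is positive on the unit sphere of
`ℓ²`.  If `p_2^k f` were an any-dimensional sum of squares, substituting suitable small vectors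
with many coordinates and passing to the limit would show that
`a^14 + a^4 b^6 + c^6 - 3 a^6 b^2 c^2` is a sum of squares, which it is not.
-/

set_option autoImplicit false

open Polynomial

namespace Pool.Agent.Results.MP_2f3180_ag.SosNegative

/-- coefficient extraction by interpolation at `0, 1, ..., D` -/
lemma interp (D i : ℕ) : ∃ w : ℕ → ℝ, ∀ h : ℝ[X], h.natDegree ≤ D →
    h.coeff i = ∑ e ∈ Finset.range (D + 1), w e * h.eval (e : ℝ) := by
  refine ⟨fun e => (Lagrange.basis (Finset.range (D + 1)) (fun e : ℕ => (e : ℝ)) e).coeff i, ?_⟩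
  intro h hD
  have hinj : Set.InjOn (fun e : ℕ => (e : ℝ)) (Finset.range (D + 1) : Set ℕ) :=
    fun a _ b _ hab => Nat.cast_injective (R := ℝ) hab
  have hdeg : h.degree < ((Finset.range (D + 1)).card : WithBot ℕ) := by
    rw [Finset.card_range]
    calc h.degree ≤ (h.natDegree : WithBot ℕ) := degree_le_natDegree
      _ < ((D + 1 : ℕ) : WithBot ℕ) := by exact_mod_cast Nat.lt_succ_of_le hD
  conv_lhs => rw [Lagrange.eq_interpolate hinj hdeg]
  rw [Lagrange.interpolate_apply, finsetSum_coeff]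
  apply Finset.sum_congr rfl
  intro e _
  rw [coeff_C_mul, mul_comm]

/-- quadratic bound for coefficients -/
lemma coeff_bound (D i : ℕ) : ∃ K : ℝ, 0 < K ∧ ∀ (N : ℕ) (h : Fin N → ℝ[X]),
    (∀ j, (h j).natDegree ≤ D) →
    ∑ j, (h j).coeff i ^ 2 ≤ K * ∑ e ∈ Finset.range (D + 1), ∑ j, (h j).eval (e : ℝ) ^ 2 := by
  obtain ⟨w, hw⟩ := interp D i
  refine ⟨(∑ e ∈ Finset.range (D + 1), w e ^ 2) + 1, ?_, ?_⟩
  · have : 0 ≤ ∑ e ∈ Finset.range (D + 1), w e ^ 2 := Finset.sum_nonneg fun _ _ => sq_nonneg _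
    linarith
  intro N h hD
  rw [Finset.sum_comm, Finset.mul_sum]
  apply Finset.sum_le_sum
  intro j _
  rw [hw (h j) (hD j)]
  have h1 := Finset.sum_mul_sq_le_sq_mul_sq (Finset.range (D + 1)) w
    (fun e => (h j).eval (e : ℝ))
  have h2 : 0 ≤ ∑ e ∈ Finset.range (D + 1), (h j).eval (e : ℝ) ^ 2 :=
    Finset.sum_nonneg fun _ _ => sq_nonneg _
  nlinarith

/-- degree bound for the summands of a sum of squares -/
lemma natDegree_le_of_sum_sq {N : ℕ} (h : Fin N → ℝ[X]) (D : ℕ)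
    (hR : (∑ j, h j ^ 2).natDegree ≤ 2 * D) (j : Fin N) : (h j).natDegree ≤ D := by
  classical
  set M : ℕ := Finset.univ.sup (fun j => (h j).natDegree) with hM
  have hle : ∀ j, (h j).natDegree ≤ M := fun j =>
    Finset.le_sup (f := fun j => (h j).natDegree) (Finset.mem_univ j)
  by_contra hcon
  push Not at hcon
  have hMD : D < M := lt_of_lt_of_le hcon (hle j)
  obtain ⟨j0, -, hj0⟩ := Finset.exists_mem_eq_sup Finset.univ ⟨j, Finset.mem_univ j⟩
    (fun j => (h j).natDegree)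
  have hj0' : (h j0).natDegree = M := hj0.symm
  have hc : (∑ j, h j ^ 2).coeff (2 * M) = 0 :=
    coeff_eq_zero_of_natDegree_lt (by omega)
  rw [finsetSum_coeff] at hc
  have hc' : ∑ j, (h j).coeff M ^ 2 = 0 := by
    rw [← hc]
    exact Finset.sum_congr rfl fun j _ => (coeff_pow_of_natDegree_le (hle j)).symm
  have h0 := (Finset.sum_eq_zero_iff_of_nonneg (fun _ _ => sq_nonneg _)).1 hc' j0
    (Finset.mem_univ _)
  have h1 : (h j0).coeff M = 0 := by simpa using h0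
  rw [← hj0'] at h1
  have h2 : h j0 = 0 := by
    rw [← leadingCoeff_eq_zero]; exact h1
  rw [h2, natDegree_zero] at hj0'
  omega

open Filter Topology

lemma small_pow (δ K' ε : ℝ) (i : ℕ) (hi : i < 21) (hδ0 : 0 < δ) (hδ1 : δ ≤ 1) (hK : 0 ≤ K')
    (h : K' * δ ^ 2 < ε) : K' * δ ^ 42 < δ ^ (2 * i) * ε := by
  obtain ⟨r, hr⟩ : ∃ r, 42 = 2 * i + (2 + r) := ⟨40 - 2 * i, by omega⟩
  have e1 : δ ^ 42 = δ ^ (2 * i) * (δ ^ 2 * δ ^ r) := by
    rw [← pow_add, ← pow_add, ← hr]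
  rw [e1]
  have h1 : δ ^ r ≤ 1 := pow_le_one₀ hδ0.le hδ1
  have h2 : 0 < δ ^ (2 * i) := by positivity
  generalize δ ^ r = y at *
  generalize δ ^ (2 * i) = z at *
  have h3 : K' * (δ ^ 2 * y) ≤ K' * δ ^ 2 := by
    have h4 : 0 ≤ K' * δ ^ 2 := by positivity
    nlinarith
  nlinarith

/-- If `∑_j h_{T,j}(t)^2 → c t^42` pointwise, with bounded degrees, then
`∑_j (coeff_21 h_{T,j})^2 → c`. -/
lemma limit_coeff (D : ℕ) (hD : 21 ≤ D) (c : ℝ) (N : ℕ → ℕ) (h : ∀ T, Fin (N T) → ℝ[X])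
    (hdeg : ∀ T j, (h T j).natDegree ≤ D)
    (hlim : ∀ t : ℝ, Tendsto (fun T => ∑ j, (h T j).eval t ^ 2) atTop (𝓝 (c * t ^ 42))) :
    Tendsto (fun T => ∑ j, (h T j).coeff 21 ^ 2) atTop (𝓝 c) := by
  have hc0 : 0 ≤ c := by
    have := hlim 1
    simp only [one_pow, mul_one] at this
    exact ge_of_tendsto' this fun T => Finset.sum_nonneg fun _ _ => sq_nonneg _
  -- low coefficients tend to zero
  have hlow : ∀ i, i < 21 → Tendsto (fun T => ∑ j, (h T j).coeff i ^ 2) atTop (𝓝 0) := by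
    intro i hi
    obtain ⟨K, hK0, hK⟩ := coeff_bound D i
    set S : ℝ := ∑ e ∈ Finset.range (D + 1), (e : ℝ) ^ 42 with hS
    have hS0 : 0 ≤ S := Finset.sum_nonneg fun _ _ => by positivity
    rw [Metric.tendsto_nhds]
    intro ε hε
    -- choose δ
    obtain ⟨δ, hδ0, hδ1, hδ⟩ : ∃ δ : ℝ, 0 < δ ∧ δ ≤ 1 ∧ K * (c * S) * δ ^ 2 < ε := by
      have hpos : 0 < K * (c * S) + 1 := by positivity
      refine ⟨min 1 (ε / (2 * (K * (c * S) + 1))), by positivity, min_le_left _ _, ?_⟩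
      set δ := min 1 (ε / (2 * (K * (c * S) + 1)))
      have h1 : δ ≤ 1 := min_le_left _ _
      have h2 : δ ≤ ε / (2 * (K * (c * S) + 1)) := min_le_right _ _
      have h0 : 0 < δ := by positivity
      have h3 : δ ^ 2 ≤ δ := by nlinarith
      have h4 : (K * (c * S) + 1) * δ ≤ ε / 2 := by
        calc (K * (c * S) + 1) * δ ≤ (K * (c * S) + 1) * (ε / (2 * (K * (c * S) + 1))) :=
              mul_le_mul_of_nonneg_left h2 hpos.le
          _ = ε / 2 := by field_simp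
      have h5 : K * (c * S) * δ ^ 2 ≤ (K * (c * S) + 1) * δ := by
        have : 0 ≤ K * (c * S) := by positivity
        nlinarith
      linarith
    have hbound : ∀ T, δ ^ (2 * i) * ∑ j, (h T j).coeff i ^ 2
        ≤ K * ∑ e ∈ Finset.range (D + 1), ∑ j, (h T j).eval (δ * e) ^ 2 := by
      intro T
      have := hK (N T) (fun j => (h T j).comp (C δ * X)) (fun j => by
        refine le_trans natDegree_comp_le ?_
        have h1 : (C δ * X : ℝ[X]).natDegree ≤ 1 := by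
          refine le_trans (natDegree_C_mul_le _ _) natDegree_X_le
        calc (h T j).natDegree * (C δ * X : ℝ[X]).natDegree ≤ D * 1 :=
              Nat.mul_le_mul (hdeg T j) h1
          _ = D := mul_one D)
      simp only [eval_comp, eval_mul, eval_C, eval_X, comp_C_mul_X_coeff] at this
      refine le_trans (le_of_eq ?_) this
      rw [Finset.mul_sum]
      apply Finset.sum_congr rfl
      intro j _
      ring
    have hlimR : Tendsto (fun T => K * ∑ e ∈ Finset.range (D + 1),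
        ∑ j, (h T j).eval (δ * e) ^ 2) atTop (𝓝 (K * ∑ e ∈ Finset.range (D + 1),
          c * (δ * (e : ℝ)) ^ 42)) := by
      apply Tendsto.const_mul
      apply tendsto_finsetSum
      intro e _
      exact hlim (δ * e)
    have hval : K * ∑ e ∈ Finset.range (D + 1), c * (δ * (e : ℝ)) ^ 42
        = K * (c * S) * δ ^ 42 := by
      rw [hS, Finset.mul_sum, Finset.mul_sum, Finset.mul_sum, Finset.sum_mul]
      apply Finset.sum_congr rfl
      intro e _
      ring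
    rw [hval] at hlimR
    have hlt : K * (c * S) * δ ^ 42 < δ ^ (2 * i) * ε :=
      small_pow δ _ ε i hi hδ0 hδ1 (by positivity) hδ
    filter_upwards [hlimR.eventually_lt_const hlt] with T hT
    have h1 : δ ^ (2 * i) * ∑ j, (h T j).coeff i ^ 2 < δ ^ (2 * i) * ε :=
      lt_of_le_of_lt (hbound T) hT
    have h2 : ∑ j, (h T j).coeff i ^ 2 < ε := lt_of_mul_lt_mul_left h1 (by positivity)
    have h3 : 0 ≤ ∑ j, (h T j).coeff i ^ 2 := Finset.sum_nonneg fun _ _ => sq_nonneg _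
    rw [Real.dist_eq, sub_zero, abs_of_nonneg h3]
    exact h2
  -- all coefficients are bounded
  have hbdd : ∀ i, ∃ B : ℝ, ∀ᶠ T in atTop, ∑ j, (h T j).coeff i ^ 2 ≤ B := by
    intro i
    obtain ⟨K, hK0, hK⟩ := coeff_bound D i
    have hlimR : Tendsto (fun T => K * ∑ e ∈ Finset.range (D + 1),
        ∑ j, (h T j).eval (e : ℝ) ^ 2) atTop (𝓝 (K * ∑ e ∈ Finset.range (D + 1),
          c * (e : ℝ) ^ 42)) := by
      apply Tendsto.const_mul
      apply tendsto_finsetSum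
      intro e _
      exact hlim e
    refine ⟨(K * ∑ e ∈ Finset.range (D + 1), c * (e : ℝ) ^ 42) + 1, ?_⟩
    filter_upwards [hlimR.eventually_lt_const (lt_add_one _)] with T hT
    exact le_trans (hK (N T) (h T) (hdeg T)) hT.le
  -- cross terms tend to zero
  have hcross : ∀ i i', i < 21 →
      Tendsto (fun T => ∑ j, (h T j).coeff i * (h T j).coeff i') atTop (𝓝 0) := by
    intro i i' hi
    obtain ⟨B, hB⟩ := hbdd i'
    have h1 : Tendsto (fun T => (∑ j, (h T j).coeff i * (h T j).coeff i') ^ 2) atTop (𝓝 0) := by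
      have h2 : Tendsto (fun T => (∑ j, (h T j).coeff i ^ 2) * |B|) atTop (𝓝 0) := by
        simpa using (hlow i hi).mul_const |B|
      refine tendsto_of_tendsto_of_tendsto_of_le_of_le' tendsto_const_nhds h2
        (Eventually.of_forall fun T => sq_nonneg _) ?_
      filter_upwards [hB] with T hT
      refine le_trans (Finset.sum_mul_sq_le_sq_mul_sq _ _ _) ?_
      exact mul_le_mul_of_nonneg_left (le_trans hT (le_abs_self B))
        (Finset.sum_nonneg fun _ _ => sq_nonneg _)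
    have h3 := (Real.continuous_sqrt.tendsto 0).comp h1
    simp only [Function.comp_def, Real.sqrt_sq_eq_abs, Real.sqrt_zero] at h3
    exact (tendsto_zero_iff_abs_tendsto_zero _).2 h3
  -- the coefficient of `t^42`
  obtain ⟨w, hw⟩ := interp (2 * D) 42
  have hcoef : Tendsto (fun T => (∑ j, h T j ^ 2).coeff 42) atTop (𝓝 c) := by
    have h1 : ∀ T, (∑ j, h T j ^ 2).coeff 42
        = ∑ e ∈ Finset.range (2 * D + 1), w e * ∑ j, (h T j).eval (e : ℝ) ^ 2 := by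
      intro T
      rw [hw]
      · apply Finset.sum_congr rfl
        intro e _
        rw [eval_finsetSum]
        simp only [eval_pow]
      · apply natDegree_sum_le_of_forall_le
        intro j _
        refine le_trans natDegree_pow_le ?_
        exact Nat.mul_le_mul_left 2 (hdeg T j)
    simp only [h1]
    have h2 : c = ∑ e ∈ Finset.range (2 * D + 1), w e * (c * (e : ℝ) ^ 42) := by
      have := hw (C c * X ^ 42) (le_trans (natDegree_C_mul_X_pow_le c 42) (by omega))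
      simpa using this
    conv => rhs; rw [h2]
    apply tendsto_finsetSum
    intro e _
    exact (hlim e).const_mul (w e)
  have hexp : ∀ T, (∑ j, h T j ^ 2).coeff 42 = ∑ x ∈ Finset.HasAntidiagonal.antidiagonal 42,
      ∑ j, (h T j).coeff x.1 * (h T j).coeff x.2 := by
    intro T
    rw [finsetSum_coeff, Finset.sum_comm]
    apply Finset.sum_congr rfl
    intro j _
    rw [pow_two, coeff_mul]
  have hmem : ((21, 21) : ℕ × ℕ) ∈ Finset.HasAntidiagonal.antidiagonal 42 := by simp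
  have hexp2 : ∀ T, ∑ j, (h T j).coeff 21 ^ 2 = (∑ j, h T j ^ 2).coeff 42
      - ∑ x ∈ (Finset.HasAntidiagonal.antidiagonal 42).erase (21, 21),
        ∑ j, (h T j).coeff x.1 * (h T j).coeff x.2 := by
    intro T
    rw [hexp, ← Finset.add_sum_erase _ _ hmem]
    simp only [pow_two]
    ring
  simp only [hexp2]
  have h0 : Tendsto (fun T => ∑ x ∈ (Finset.HasAntidiagonal.antidiagonal 42).erase (21, 21),
        ∑ j, (h T j).coeff x.1 * (h T j).coeff x.2) atTop (𝓝 0) := by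
    have : (0 : ℝ) = ∑ x ∈ (Finset.HasAntidiagonal.antidiagonal 42).erase ((21, 21) : ℕ × ℕ), (0 : ℝ) := by simp
    rw [this]
    apply tendsto_finsetSum
    rintro ⟨i, i'⟩ hx
    simp only [Finset.mem_erase, Finset.HasAntidiagonal.mem_antidiagonal, ne_eq, Prod.mk.injEq] at hx
    rcases lt_trichotomy i 21 with hi | hi | hi
    · exact hcross i i' hi
    · omega
    · have := hcross i' i (by omega)
      simpa only [mul_comm] using this
  simpa using hcoef.sub h0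




/-- The function `f = p_3^14 + p_3^4 p_5^6 + p_7^6 - 3 p_3^6 p_5^2 p_7^2 + p_42`,
with the variable `X j` standing for `p_{j+2}`. -/
noncomputable def g : MvPolynomial ℕ ℝ :=
  MvPolynomial.X 1 ^ 14 + MvPolynomial.X 1 ^ 4 * MvPolynomial.X 3 ^ 6 + MvPolynomial.X 5 ^ 6
    - MvPolynomial.C 3 * (MvPolynomial.X 1 ^ 6 * MvPolynomial.X 3 ^ 2 * MvPolynomial.X 5 ^ 2)
    + MvPolynomial.X 40

lemma g_homog : g.IsWeightedHomogeneous (fun j => j + 2) 42 := by
  have hX : ∀ j : ℕ, (MvPolynomial.X j : MvPolynomial ℕ ℝ).IsWeightedHomogeneous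
      (fun j => j + 2) (j + 2) := fun j => MvPolynomial.isWeightedHomogeneous_X ℝ _ j
  have h1 := (hX 1).pow 14
  have h2 := ((hX 1).pow 4).mul ((hX 3).pow 6)
  have h3 := (hX 5).pow 6
  have h4 := ((((hX 1).pow 6).mul ((hX 3).pow 2)).mul ((hX 5).pow 2)).C_mul 3
  exact (((h1.add h2).add h3).sub h4).add (hX 40)

/-- the polynomial function underlying `g` -/
def G (a b c d : ℝ) : ℝ := a ^ 14 + a ^ 4 * b ^ 6 + c ^ 6 - 3 * (a ^ 6 * b ^ 2 * c ^ 2) + d

lemma g_eval (v : ℕ → ℝ) : MvPolynomial.eval v g = G (v 1) (v 3) (v 5) (v 40) := by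
  simp [g, G]

lemma amgm (a b c : ℝ) : 0 ≤ a ^ 14 + a ^ 4 * b ^ 6 + c ^ 6 - 3 * (a ^ 6 * b ^ 2 * c ^ 2) := by
  have h := Real.geom_mean_le_arith_mean3_weighted (w₁ := 1 / 3) (w₂ := 1 / 3) (w₃ := 1 / 3)
    (p₁ := a ^ 14) (p₂ := a ^ 4 * b ^ 6) (p₃ := c ^ 6) (by norm_num) (by norm_num) (by norm_num)
    (by positivity) (by positivity) (by positivity) (by norm_num)
  rw [← Real.mul_rpow (by positivity) (by positivity),
    ← Real.mul_rpow (by positivity) (by positivity)] at h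
  have e : a ^ 14 * (a ^ 4 * b ^ 6) * c ^ 6 = (a ^ 6 * b ^ 2 * c ^ 2) ^ (3 : ℕ) := by ring
  rw [e, show (1 / 3 : ℝ) = ((3 : ℕ) : ℝ)⁻¹ by norm_num,
    Real.pow_rpow_inv_natCast (by positivity) (by norm_num)] at h
  norm_num at h
  linarith

lemma G_pos_of (a b c d : ℝ) (hd : 0 < d) : 0 < G a b c d := by
  have := amgm a b c
  unfold G
  linarith

lemma g_pos (x : ℕ → ℝ) (hx' : HasSum (fun i => x i ^ 2) 1) :
    0 < MvPolynomial.eval (fun j => ∑' i, (x i) ^ (j + 2)) g := by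
  rw [g_eval]
  apply G_pos_of
  have hx : ∑' i, (x i) ^ 2 = 1 := hx'.tsum_eq
  have hs1 : Summable (fun i => (x i) ^ 2) := hx'.summable
  have hle : ∀ i, (x i) ^ 2 ≤ 1 := fun i => by
    rw [← hx]; exact hs1.le_tsum i (fun j _ => sq_nonneg _)
  have e : ∀ i, (x i) ^ (40 + 2) = ((x i) ^ 2) ^ 20 * (x i) ^ 2 := fun i => by ring
  have h0 : ∀ i, 0 ≤ (x i) ^ (40 + 2) := fun i => by rw [e]; positivity
  have hs2 : Summable (fun i => (x i) ^ (40 + 2)) :=
    Summable.of_nonneg_of_le h0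
      (fun i => by
        rw [e]
        have : ((x i) ^ 2) ^ 20 ≤ 1 := pow_le_one₀ (sq_nonneg _) (hle i)
        have h2 := sq_nonneg (x i)
        nlinarith) hs1
  obtain ⟨i, hi⟩ : ∃ i, x i ≠ 0 := by
    by_contra hcon
    push Not at hcon
    simp [hcon] at hx
  exact hs2.tsum_pos h0 i (by rw [e]; positivity)

/-- decomposition of a sum of squares as a finite family of squares -/
lemma exists_fin_of_isSumSq {A : Type*} [CommRing A] {P : A} (hP : IsSumSq P) :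
    ∃ (N : ℕ) (s : Fin N → A), P = ∑ j, s j ^ 2 := by
  induction hP with
  | zero => exact ⟨0, Fin.elim0, by simp⟩
  | sq_add a _ ih =>
    obtain ⟨N, s, hs⟩ := ih
    refine ⟨N + 1, Fin.cons a s, ?_⟩
    rw [Fin.sum_univ_succ]
    simp [hs, pow_two]

lemma isSumSq_map {A B : Type*} [CommRing A] [CommRing B] (φ : A →+* B) {P : A}
    (hP : IsSumSq P) : IsSumSq (φ P) := by
  induction hP with
  | zero => rw [map_zero]; exact IsSumSq.zero
  | sq_add a _ ih => rw [map_add, map_mul]; exact IsSumSq.sq_add _ ih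

/-- reindexing of variables -/
lemma isSumSq_rename {σ τ : Type*} [Fintype σ] [Fintype τ] (e : σ ≃ τ) (k : ℕ)
    (h : IsSumSq (MvPolynomial.psum σ ℝ 2 ^ k *
      MvPolynomial.aeval (fun j => MvPolynomial.psum σ ℝ (j + 2)) g)) :
    IsSumSq (MvPolynomial.psum τ ℝ 2 ^ k *
      MvPolynomial.aeval (fun j => MvPolynomial.psum τ ℝ (j + 2)) g) := by
  have h1 := isSumSq_map (MvPolynomial.rename e : MvPolynomial σ ℝ →ₐ[ℝ] MvPolynomial τ ℝ).toRingHom h
  simp only [AlgHom.toRingHom_eq_coe, RingHom.coe_coe] at h1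
  rw [map_mul, map_pow, MvPolynomial.rename_psum] at h1
  have h2 : (MvPolynomial.rename e : MvPolynomial σ ℝ →ₐ[ℝ] MvPolynomial τ ℝ)
      (MvPolynomial.aeval (fun j => MvPolynomial.psum σ ℝ (j + 2)) g)
      = MvPolynomial.aeval (fun j => MvPolynomial.psum τ ℝ (j + 2)) g := by
    rw [MvPolynomial.comp_aeval_apply]
    simp only [MvPolynomial.rename_psum]
  rwa [h2] at h1

/-- the substitution `u ↦ (a t^3, b t^5, c t^7)` -/
noncomputable def curve (a b c : ℝ) : Fin 3 → ℝ[X] :=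
  ![C a * X ^ 3, C b * X ^ 5, C c * X ^ 7]

/-- the coefficient of `t^21` along a weighted curve -/
noncomputable def H (a b c : ℝ) (S : MvPolynomial (Fin 3) ℝ) : ℝ :=
  (MvPolynomial.aeval (curve a b c) S).coeff 21

lemma H_add (a b c : ℝ) (S S' : MvPolynomial (Fin 3) ℝ) :
    H a b c (S + S') = H a b c S + H a b c S' := by
  simp [H]

lemma H_monomial (a b c : ℝ) (m : Fin 3 →₀ ℕ) (r : ℝ) :
    H a b c (MvPolynomial.monomial m r)
      = if 3 * m 0 + 5 * m 1 + 7 * m 2 = 21 then r * (a ^ m 0 * b ^ m 1 * c ^ m 2) else 0 := by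
  unfold H curve
  rw [MvPolynomial.aeval_monomial, Finsupp.prod_fintype _ _ (by simp)]
  simp only [Fin.prod_univ_three, Matrix.cons_val_zero, Matrix.cons_val_one, Matrix.cons_val,
    algebraMap_eq]
  have : (C r * ((C a * X ^ 3) ^ m 0 * (C b * X ^ 5) ^ m 1 * (C c * X ^ 7) ^ m 2) : ℝ[X])
      = C (r * (a ^ m 0 * b ^ m 1 * c ^ m 2)) * X ^ (3 * m 0 + 5 * m 1 + 7 * m 2) := by
    simp only [C_mul, C_pow, mul_pow, ← pow_mul, pow_add]
    ring
  rw [this, coeff_C_mul, coeff_X_pow]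
  by_cases h : 3 * m 0 + 5 * m 1 + 7 * m 2 = 21
  · simp [h]
  · simp [h, Ne.symm h]

/-- the orthogonality relation -/
lemma H_orth (S : MvPolynomial (Fin 3) ℝ) :
    8 * H 1 0 0 S = (H 1 1 1 S + H 1 1 (-1) S + H 1 (-1) 1 S + H 1 (-1) (-1) S)
      - (H (-1) 1 1 S + H (-1) 1 (-1) S + H (-1) (-1) 1 S + H (-1) (-1) (-1) S) := by
  induction S using MvPolynomial.induction_on' with
  | monomial m r =>
    simp only [H_monomial]
    by_cases h : 3 * m 0 + 5 * m 1 + 7 * m 2 = 21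
    · simp only [h, if_true]
      have h0 : m 0 ≤ 7 := by omega
      have h1 : m 1 ≤ 4 := by omega
      have h2 : m 2 ≤ 3 := by omega
      generalize m 0 = x at *
      generalize m 1 = y at *
      generalize m 2 = z at *
      interval_cases y <;> interval_cases z <;>
        first
          | omega
          | (have hx : x = 7 := by omega
             subst hx; norm_num; try ring)
          | (have hx : x = 0 := by omega
             subst hx; norm_num)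
          | (have hx : x = 2 := by omega
             subst hx; norm_num)
          | (have hx : x = 3 := by omega
             subst hx; norm_num)
    · simp only [h, if_false]
      ring
  | add S S' h h' =>
    simp only [H_add]
    linarith

lemma H_bound (S : MvPolynomial (Fin 3) ℝ) :
    8 * H 1 0 0 S ^ 2 ≤ H 1 1 1 S ^ 2 + H 1 1 (-1) S ^ 2 + H 1 (-1) 1 S ^ 2
      + H 1 (-1) (-1) S ^ 2 + H (-1) 1 1 S ^ 2 + H (-1) 1 (-1) S ^ 2 + H (-1) (-1) 1 S ^ 2
      + H (-1) (-1) (-1) S ^ 2 := by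
  have h := H_orth S
  generalize H 1 0 0 S = p at *
  generalize H 1 1 1 S = a1 at *
  generalize H 1 1 (-1) S = a2 at *
  generalize H 1 (-1) 1 S = a3 at *
  generalize H 1 (-1) (-1) S = a4 at *
  generalize H (-1) 1 1 S = a5 at *
  generalize H (-1) 1 (-1) S = a6 at *
  generalize H (-1) (-1) 1 S = a7 at *
  generalize H (-1) (-1) (-1) S = a8 at *
  have key : (∑ i : Fin 8, (![1, 1, 1, 1, -1, -1, -1, -1] : Fin 8 → ℝ) i *
      (![a1, a2, a3, a4, a5, a6, a7, a8] : Fin 8 → ℝ) i) ^ 2 ≤ _ :=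
    Finset.sum_mul_sq_le_sq_mul_sq Finset.univ _ _
  simp [Fin.sum_univ_succ] at key
  have h8 : 8 * p = a1 + (a2 + (a3 + (a4 + (-a5 + (-a6 + (-a7 + -a8)))))) := by linarith
  rw [← h8] at key
  nlinarith



/-- the nodes `1, 2, 3` -/
noncomputable def cc : Fin 3 → ℝ := ![1, 2, 3]

/-- the interpolation weights -/
noncomputable def al : Fin 3 → Fin 3 → ℝ :=
  ![![3 / 2 / 6, -13 / 24 / 10, 1 / 24 / 14], ![-3 / 20 / 6, 1 / 6 / 10, -1 / 60 / 14],
    ![1 / 90 / 6, -1 / 72 / 10, 1 / 360 / 14]]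

/-- the linear forms `λ_l` -/
noncomputable def lam {A : Type*} [CommRing A] [Algebra ℝ A] (τ : ℝ) (u : Fin 3 → A)
    (l : Fin 3) : A :=
  algebraMap ℝ A (al l 0 * τ ^ 4) * u 0 + algebraMap ℝ A (al l 1 * τ ^ 2) * u 1
    + algebraMap ℝ A (al l 2) * u 2

/-- the points `± c_l τ + τ^4 λ_l` -/
noncomputable def pts {A : Type*} [CommRing A] [Algebra ℝ A] (ι : Type) (τ : ℝ) (u : Fin 3 → A)
    (x : (Fin 3 × Bool) × ι) : A :=
  algebraMap ℝ A ((if x.1.2 then cc x.1.1 else - cc x.1.1) * τ)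
    + algebraMap ℝ A (τ ^ 4) * lam τ u x.1.1

lemma map_pts {A B : Type*} [CommRing A] [Algebra ℝ A] [CommRing B] [Algebra ℝ B]
    (φ : A →ₐ[ℝ] B) (ι : Type) (τ : ℝ) (u : Fin 3 → A) (x : (Fin 3 × Bool) × ι) :
    φ (pts ι τ u x) = pts ι τ (fun i => φ (u i)) x := by
  simp only [pts, lam, map_add, map_mul, AlgHom.commutes]

lemma lam_rel (τ : ℝ) (u : Fin 3 → ℝ) :
    (lam τ u 0 + 4 * lam τ u 1 + 9 * lam τ u 2 = τ ^ 4 * u 0 / 6) ∧
    (lam τ u 0 + 16 * lam τ u 1 + 81 * lam τ u 2 = τ ^ 2 * u 1 / 10) ∧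
    (lam τ u 0 + 64 * lam τ u 1 + 729 * lam τ u 2 = u 2 / 14) := by
  simp only [lam, al, Algebra.algebraMap_self, RingHom.id_apply, Matrix.cons_val_zero,
    Matrix.cons_val_one, Matrix.cons_val]
  refine ⟨?_, ?_, ?_⟩ <;> ring

/-- the limits of the normalised power sums, as polynomial functions of `τ` -/
noncomputable def q2 (τ : ℝ) (u : Fin 3 → ℝ) : ℝ :=
  28 + 2 * τ ^ 6 * (lam τ u 0 ^ 2 + lam τ u 1 ^ 2 + lam τ u 2 ^ 2)

noncomputable def q3 (τ : ℝ) (u : Fin 3 → ℝ) : ℝ :=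
  u 0 + 2 * τ ^ 2 * (lam τ u 0 ^ 3 + lam τ u 1 ^ 3 + lam τ u 2 ^ 3)

noncomputable def q5 (τ : ℝ) (u : Fin 3 → ℝ) : ℝ :=
  u 1 + 20 * τ ^ 4 * (lam τ u 0 ^ 3 + 4 * lam τ u 1 ^ 3 + 9 * lam τ u 2 ^ 3)
    + 2 * τ ^ 10 * (lam τ u 0 ^ 5 + lam τ u 1 ^ 5 + lam τ u 2 ^ 5)

noncomputable def q7 (τ : ℝ) (u : Fin 3 → ℝ) : ℝ :=
  u 2 + 70 * τ ^ 6 * (lam τ u 0 ^ 3 + 16 * lam τ u 1 ^ 3 + 81 * lam τ u 2 ^ 3)
    + 42 * τ ^ 12 * (lam τ u 0 ^ 5 + 4 * lam τ u 1 ^ 5 + 9 * lam τ u 2 ^ 5)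
    + 2 * τ ^ 18 * (lam τ u 0 ^ 7 + lam τ u 1 ^ 7 + lam τ u 2 ^ 7)

noncomputable def q42 (τ : ℝ) (u : Fin 3 → ℝ) : ℝ :=
  τ ^ 32 * ((1 + τ ^ 3 * lam τ u 0) ^ 42 + (-1 + τ ^ 3 * lam τ u 0) ^ 42
    + (2 + τ ^ 3 * lam τ u 1) ^ 42 + (-2 + τ ^ 3 * lam τ u 1) ^ 42
    + (3 + τ ^ 3 * lam τ u 2) ^ 42 + (-3 + τ ^ 3 * lam τ u 2) ^ 42)

lemma sum_pts (N : ℕ) (τ : ℝ) (u : Fin 3 → ℝ) (m : ℕ) :
    ∑ x, pts (Fin N) τ u x ^ m = N * ((1 * τ + τ ^ 4 * lam τ u 0) ^ m
      + (-1 * τ + τ ^ 4 * lam τ u 0) ^ m + (2 * τ + τ ^ 4 * lam τ u 1) ^ m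
      + (-2 * τ + τ ^ 4 * lam τ u 1) ^ m + (3 * τ + τ ^ 4 * lam τ u 2) ^ m
      + (-3 * τ + τ ^ 4 * lam τ u 2) ^ m) := by
  rw [Fintype.sum_prod_type]
  simp only [pts, Finset.sum_const, Finset.card_univ, Fintype.card_fin, nsmul_eq_mul]
  rw [← Finset.mul_sum, Fintype.sum_prod_type]
  simp only [Fintype.sum_bool, Fin.sum_univ_three, cc, Algebra.algebraMap_self, RingHom.id_apply,
    Matrix.cons_val_zero, Matrix.cons_val_one, Matrix.cons_val, if_true]
  simp only [Bool.false_eq_true, if_false]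
  ring

lemma psum_pts (M : ℕ) (hM : 0 < M) (u : Fin 3 → ℝ) :
    (∑ x, pts (Fin (M ^ 10)) (1 / (M : ℝ)) u x ^ 2 = (M : ℝ) ^ 8 * q2 (1 / M) u) ∧
    (∑ x, pts (Fin (M ^ 10)) (1 / (M : ℝ)) u x ^ 3 = q3 (1 / M) u) ∧
    (∑ x, pts (Fin (M ^ 10)) (1 / (M : ℝ)) u x ^ 5 = q5 (1 / M) u) ∧
    (∑ x, pts (Fin (M ^ 10)) (1 / (M : ℝ)) u x ^ 7 = q7 (1 / M) u) ∧
    (∑ x, pts (Fin (M ^ 10)) (1 / (M : ℝ)) u x ^ 42 = q42 (1 / M) u) := by
  obtain ⟨h2, h4, h6⟩ := lam_rel (1 / (M : ℝ)) u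
  simp only [sum_pts]
  have hMτ : (M : ℝ) * (1 / M) = 1 := by
    have : (M : ℝ) ≠ 0 := by positivity
    field_simp
  have hM10 : ((M ^ 10 : ℕ) : ℝ) * (1 / (M : ℝ)) ^ 10 = 1 := by
    push_cast
    rw [← mul_pow, hMτ, one_pow]
  have hM2 : ((M ^ 10 : ℕ) : ℝ) * (1 / (M : ℝ)) ^ 2 = (M : ℝ) ^ 8 := by
    push_cast
    calc (M : ℝ) ^ 10 * (1 / (M : ℝ)) ^ 2 = M ^ 8 * (M * (1 / M)) ^ 2 := by ring
      _ = _ := by rw [hMτ]; ring
  unfold q2 q3 q5 q7 q42
  generalize lam (1 / (M : ℝ)) u 0 = l0 at *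
  generalize lam (1 / (M : ℝ)) u 1 = l1 at *
  generalize lam (1 / (M : ℝ)) u 2 = l2 at *
  generalize (1 : ℝ) / M = τ at *
  generalize ((M ^ 10 : ℕ) : ℝ) = W at *
  refine ⟨?_, ?_, ?_, ?_, ?_⟩
  · rw [← hM2]; ring
  · linear_combination 6 * W * τ ^ 6 * h2 + (u 0 + 2 * τ ^ 2 * (l0 ^ 3 + l1 ^ 3 + l2 ^ 3)) * hM10
  · linear_combination 10 * W * τ ^ 8 * h4
      + (u 1 + 20 * τ ^ 4 * (l0 ^ 3 + 4 * l1 ^ 3 + 9 * l2 ^ 3)
        + 2 * τ ^ 10 * (l0 ^ 5 + l1 ^ 5 + l2 ^ 5)) * hM10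
  · linear_combination 14 * W * τ ^ 10 * h6
      + (u 2 + 70 * τ ^ 6 * (l0 ^ 3 + 16 * l1 ^ 3 + 81 * l2 ^ 3)
    + 42 * τ ^ 12 * (l0 ^ 5 + 4 * l1 ^ 5 + 9 * l2 ^ 5)
    + 2 * τ ^ 18 * (l0 ^ 7 + l1 ^ 7 + l2 ^ 7)) * hM10
  · have e : ∀ c l : ℝ, (c * τ + τ ^ 4 * l) ^ 42 = τ ^ 10 * (τ ^ 32 * (c + τ ^ 3 * l) ^ 42) := by
      intro c l
      rw [show c * τ + τ ^ 4 * l = τ * (c + τ ^ 3 * l) by ring, mul_pow, ← mul_assoc, ← pow_add]
    rw [e, e, e, e, e, e]
    generalize (1 + τ ^ 3 * l0) ^ 42 = z1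
    generalize (-1 + τ ^ 3 * l0) ^ 42 = z2
    generalize (2 + τ ^ 3 * l1) ^ 42 = z3
    generalize (-2 + τ ^ 3 * l1) ^ 42 = z4
    generalize (3 + τ ^ 3 * l2) ^ 42 = z5
    generalize (-3 + τ ^ 3 * l2) ^ 42 = z6
    linear_combination (τ ^ 32 * (z1 + z2 + z3 + z4 + z5 + z6)) * hM10

/-- the limit -/
lemma tendsto_R (k : ℕ) (u : Fin 3 → ℝ) :
    Filter.Tendsto (fun T : ℕ => q2 (1 / ((T + 1 : ℕ) : ℝ)) u ^ k * G (q3 (1 / ((T + 1 : ℕ) : ℝ)) u)
      (q5 (1 / ((T + 1 : ℕ) : ℝ)) u) (q7 (1 / ((T + 1 : ℕ) : ℝ)) u) (q42 (1 / ((T + 1 : ℕ) : ℝ)) u))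
      Filter.atTop (nhds (28 ^ k * G (u 0) (u 1) (u 2) 0)) := by
  have hcont : Continuous (fun τ : ℝ => q2 τ u ^ k * G (q3 τ u) (q5 τ u) (q7 τ u) (q42 τ u)) := by
    unfold q2 q3 q5 q7 q42 G lam
    simp only [Algebra.algebraMap_self, RingHom.id_apply]
    fun_prop
  have h0 : (fun τ : ℝ => q2 τ u ^ k * G (q3 τ u) (q5 τ u) (q7 τ u) (q42 τ u)) 0
      = 28 ^ k * G (u 0) (u 1) (u 2) 0 := by
    simp [q2, q3, q5, q7, q42]
  rw [← h0]
  have h1 : Filter.Tendsto (fun T : ℕ => 1 / ((T + 1 : ℕ) : ℝ)) Filter.atTop (nhds 0) := by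
    simpa using tendsto_one_div_add_atTop_nhds_zero_nat (𝕜 := ℝ)
  exact (hcont.tendsto 0).comp h1

lemma eval_P (k : ℕ) {σ : Type*} [Fintype σ] (x : σ → ℝ) :
    MvPolynomial.eval x (MvPolynomial.psum σ ℝ 2 ^ k *
      MvPolynomial.aeval (fun j => MvPolynomial.psum σ ℝ (j + 2)) g)
    = (∑ i, x i ^ 2) ^ k * G (∑ i, x i ^ 3) (∑ i, x i ^ 5) (∑ i, x i ^ 7) (∑ i, x i ^ 42) := by
  simp [g, G, MvPolynomial.psum]

lemma aeval_P {A : Type*} [CommRing A] [Algebra ℝ A] (k : ℕ) {σ : Type*} [Fintype σ] (x : σ → A) :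
    MvPolynomial.aeval x (MvPolynomial.psum σ ℝ 2 ^ k *
      MvPolynomial.aeval (fun j => MvPolynomial.psum σ ℝ (j + 2)) g)
    = (∑ i, x i ^ 2) ^ k * ((∑ i, x i ^ 3) ^ 14 + (∑ i, x i ^ 3) ^ 4 * (∑ i, x i ^ 5) ^ 6
      + (∑ i, x i ^ 7) ^ 6 - algebraMap ℝ A 3 *
        ((∑ i, x i ^ 3) ^ 6 * (∑ i, x i ^ 5) ^ 2 * (∑ i, x i ^ 7) ^ 2) + (∑ i, x i ^ 42)) := by
  simp [g, MvPolynomial.psum]

lemma natDegree_pts (a b c : ℝ) (ι : Type) (τ : ℝ) (x : (Fin 3 × Bool) × ι) :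
    (pts ι τ (curve a b c) x).natDegree ≤ 7 := by
  have hX : ∀ (r : ℝ) (n : ℕ), n ≤ 7 → (C r * X ^ n : ℝ[X]).natDegree ≤ 7 := fun r n hn =>
    le_trans (natDegree_C_mul_X_pow_le r n) hn
  unfold pts lam curve
  simp only [Matrix.cons_val_zero, Matrix.cons_val_one, Matrix.cons_val, algebraMap_eq]
  refine natDegree_add_le_of_degree_le (by simp) ?_
  refine le_trans (natDegree_C_mul_le _ _) ?_
  refine natDegree_add_le_of_degree_le (natDegree_add_le_of_degree_le ?_ ?_) ?_ <;>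
    exact le_trans (natDegree_C_mul_le _ _) (hX _ _ (by norm_num))

lemma natDegree_sum_pts (a b c : ℝ) (N : ℕ) (τ : ℝ) (m : ℕ) :
    (∑ x, pts (Fin N) τ (curve a b c) x ^ m).natDegree ≤ m * 7 := by
  apply natDegree_sum_le_of_forall_le
  intro x _
  exact le_trans natDegree_pow_le (Nat.mul_le_mul_left m (natDegree_pts a b c _ τ x))

lemma natDegree_P (a b c : ℝ) (N : ℕ) (τ : ℝ) (k : ℕ) :
    (MvPolynomial.aeval (pts (Fin N) τ (curve a b c)) (MvPolynomial.psum ((Fin 3 × Bool) × Fin N) ℝ 2 ^ k *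
      MvPolynomial.aeval (fun j => MvPolynomial.psum ((Fin 3 × Bool) × Fin N) ℝ (j + 2)) g)).natDegree
      ≤ 2 * (7 * (k + 21)) := by
  rw [aeval_P]
  have h2 := natDegree_sum_pts a b c N τ 2
  have h3 := natDegree_sum_pts a b c N τ 3
  have h5 := natDegree_sum_pts a b c N τ 5
  have h7 := natDegree_sum_pts a b c N τ 7
  have h42 := natDegree_sum_pts a b c N τ 42
  generalize (∑ x, pts (Fin N) τ (curve a b c) x ^ 2) = Q2 at *
  generalize (∑ x, pts (Fin N) τ (curve a b c) x ^ 3) = Q3 at *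
  generalize (∑ x, pts (Fin N) τ (curve a b c) x ^ 5) = Q5 at *
  generalize (∑ x, pts (Fin N) τ (curve a b c) x ^ 7) = Q7 at *
  generalize (∑ x, pts (Fin N) τ (curve a b c) x ^ 42) = Q42 at *
  have hp : ∀ (p : ℝ[X]) (n m : ℕ), p.natDegree ≤ n → (p ^ m).natDegree ≤ m * n :=
    fun p n m h => le_trans natDegree_pow_le (Nat.mul_le_mul_left m h)
  have e1 : (Q3 ^ 14 + Q3 ^ 4 * Q5 ^ 6 + Q7 ^ 6 - algebraMap ℝ ℝ[X] 3 *
        (Q3 ^ 6 * Q5 ^ 2 * Q7 ^ 2) + Q42).natDegree ≤ 294 := by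
    refine natDegree_add_le_of_degree_le (le_trans (natDegree_sub_le _ _) (max_le
      (natDegree_add_le_of_degree_le (natDegree_add_le_of_degree_le ?_ ?_) ?_) ?_)) ?_
    · exact le_trans (hp _ _ _ h3) (by norm_num)
    · exact le_trans (natDegree_mul_le_of_le (hp _ _ _ h3) (hp _ _ _ h5)) (by norm_num)
    · exact le_trans (hp _ _ _ h7) (by norm_num)
    · rw [algebraMap_eq]
      refine le_trans (natDegree_C_mul_le _ _) ?_
      exact le_trans (natDegree_mul_le_of_le (natDegree_mul_le_of_le (hp _ _ _ h3) (hp _ _ _ h5))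
        (hp _ _ _ h7)) (by norm_num)
    · exact le_trans h42 (by norm_num)
  refine le_trans (natDegree_mul_le_of_le (hp _ _ k h2) e1) ?_
  omega

lemma scale_aux (M : ℝ) (hM : M ≠ 0) (k : ℕ) (Q W : ℝ) :
    ((1 / M) ^ (4 * k)) ^ 2 * ((M ^ 8 * Q) ^ k * W) = Q ^ k * W := by
  have h : ((1 / M) ^ (4 * k)) ^ 2 * (M ^ 8) ^ k = 1 := by
    rw [← pow_mul, ← pow_mul, show 4 * k * 2 = 8 * k by ring, ← mul_pow, one_div,
      inv_mul_cancel₀ hM, one_pow]
  rw [mul_pow]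
  calc ((1 / M) ^ (4 * k)) ^ 2 * ((M ^ 8) ^ k * Q ^ k * W)
      = (((1 / M) ^ (4 * k)) ^ 2 * (M ^ 8) ^ k) * (Q ^ k * W) := by ring
    _ = Q ^ k * W := by rw [h, one_mul]

/-- **Q2 of the problem has a negative answer.**  There are `d ≥ 1` and a polynomial `f` in the
power sums `p_2, p_3, ...`, homogeneous of degree `2 * d` and strictly positive on the unit sphere
of `ℓ²`, such that for every `k` there is an `n ≥ 1` for which the truncation of `p_2 ^ k * f` to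
`n` variables is not a sum of squares of real polynomials. -/
theorem result :
    ∃ (d : ℕ) (g : MvPolynomial ℕ ℝ), 1 ≤ d ∧
      g.IsWeightedHomogeneous (fun j => j + 2) (2 * d) ∧
      (∀ x : ℕ → ℝ, HasSum (fun i => x i ^ 2) 1 →
        0 < MvPolynomial.eval (fun j => ∑' i, x i ^ (j + 2)) g) ∧
      ∀ k : ℕ, ∃ n : ℕ, 1 ≤ n ∧ ¬ IsSumSq (MvPolynomial.psum (Fin n) ℝ 2 ^ k *
        MvPolynomial.aeval (fun j => MvPolynomial.psum (Fin n) ℝ (j + 2)) g) := by
  refine ⟨21, g, by norm_num, g_homog, g_pos, ?_⟩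
  intro k
  by_contra hcon
  push Not at hcon
  -- sums of squares in the block variables
  have hex : ∀ T : ℕ, ∃ (N : ℕ) (s : Fin N → MvPolynomial ((Fin 3 × Bool) × Fin ((T + 1) ^ 10)) ℝ),
      MvPolynomial.psum ((Fin 3 × Bool) × Fin ((T + 1) ^ 10)) ℝ 2 ^ k *
        MvPolynomial.aeval (fun j => MvPolynomial.psum ((Fin 3 × Bool) × Fin ((T + 1) ^ 10)) ℝ (j + 2)) g
        = ∑ j, s j ^ 2 := by
    intro T
    have hcard : 1 ≤ Fintype.card ((Fin 3 × Bool) × Fin ((T + 1) ^ 10)) := by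
      simp only [Fintype.card_prod, Fintype.card_fin, Fintype.card_bool]
      have : 0 < (T + 1) ^ 10 := by positivity
      omega
    exact exists_fin_of_isSumSq (isSumSq_rename (Fintype.equivFin _).symm k (hcon _ hcard))
  choose N s hs using hex
  -- the squares as polynomials in three variables
  set τ : ℕ → ℝ := fun T => 1 / ((T + 1 : ℕ) : ℝ) with hτ
  set S : ∀ T, Fin (N T) → MvPolynomial (Fin 3) ℝ := fun T j =>
    MvPolynomial.C (τ T ^ (4 * k)) * MvPolynomial.aeval (pts (Fin ((T + 1) ^ 10)) (τ T)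
      (fun i => (MvPolynomial.X i : MvPolynomial (Fin 3) ℝ))) (s T j) with hS
  -- along a curve
  have hcurve : ∀ (a b c : ℝ) (T : ℕ) (j : Fin (N T)),
      MvPolynomial.aeval (curve a b c) (S T j)
        = C (τ T ^ (4 * k)) * MvPolynomial.aeval (pts (Fin ((T + 1) ^ 10)) (τ T) (curve a b c)) (s T j) := by
    intro a b c T j
    rw [hS]
    simp only [map_mul, MvPolynomial.aeval_C, algebraMap_eq]
    congr 1
    rw [MvPolynomial.comp_aeval_apply]
    congr 2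
    funext x
    rw [map_pts]
    simp
  have hdeg : ∀ (a b c : ℝ) (T : ℕ) (j : Fin (N T)),
      (MvPolynomial.aeval (curve a b c) (S T j)).natDegree ≤ 7 * (k + 21) := by
    intro a b c T j
    rw [hcurve]
    refine le_trans (natDegree_C_mul_le _ _) ?_
    apply natDegree_le_of_sum_sq
      (fun j => MvPolynomial.aeval (pts (Fin ((T + 1) ^ 10)) (τ T) (curve a b c)) (s T j))
    have := natDegree_P a b c ((T + 1) ^ 10) (τ T) k
    rw [hs T, map_sum] at this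
    simpa only [map_pow] using this
  have hval : ∀ (a b c : ℝ) (T : ℕ) (t : ℝ),
      ∑ j, (MvPolynomial.aeval (curve a b c) (S T j)).eval t ^ 2
        = q2 (1 / ((T + 1 : ℕ) : ℝ)) ![a * t ^ 3, b * t ^ 5, c * t ^ 7] ^ k *
          G (q3 (1 / ((T + 1 : ℕ) : ℝ)) ![a * t ^ 3, b * t ^ 5, c * t ^ 7])
          (q5 (1 / ((T + 1 : ℕ) : ℝ)) ![a * t ^ 3, b * t ^ 5, c * t ^ 7])
          (q7 (1 / ((T + 1 : ℕ) : ℝ)) ![a * t ^ 3, b * t ^ 5, c * t ^ 7])
          (q42 (1 / ((T + 1 : ℕ) : ℝ)) ![a * t ^ 3, b * t ^ 5, c * t ^ 7]) := by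
    intro a b c T t
    have h1 : ∀ p : MvPolynomial ((Fin 3 × Bool) × Fin ((T + 1) ^ 10)) ℝ,
        (MvPolynomial.aeval (pts (Fin ((T + 1) ^ 10)) (τ T) (curve a b c)) p).eval t
        = MvPolynomial.eval (pts (Fin ((T + 1) ^ 10)) (τ T) ![a * t ^ 3, b * t ^ 5, c * t ^ 7]) p := by
      intro p
      have h2 : (MvPolynomial.aeval (pts (Fin ((T + 1) ^ 10)) (τ T) (curve a b c)) p).eval t
          = (Polynomial.aeval t) (MvPolynomial.aeval (pts (Fin ((T + 1) ^ 10)) (τ T) (curve a b c)) p) := by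
        rw [Polynomial.coe_aeval_eq_eval]
      rw [h2, MvPolynomial.comp_aeval_apply, ← MvPolynomial.coe_aeval_eq_eval]
      simp only [RingHom.coe_coe]
      congr 2
      funext x
      rw [map_pts]
      congr 1
      funext i
      fin_cases i <;> simp [curve]
    have h3 := congrArg (MvPolynomial.eval (pts (Fin ((T + 1) ^ 10)) (τ T)
      ![a * t ^ 3, b * t ^ 5, c * t ^ 7])) (hs T)
    rw [eval_P, map_sum] at h3
    simp only [map_pow] at h3
    obtain ⟨e2, e3, e5, e7, e42⟩ := psum_pts (T + 1) (Nat.succ_pos T)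
      ![a * t ^ 3, b * t ^ 5, c * t ^ 7]
    have hne : ((T + 1 : ℕ) : ℝ) ≠ 0 := by positivity
    simp only [hcurve, eval_mul, eval_C, h1, mul_pow]
    rw [← Finset.mul_sum, ← h3]
    rw [show τ T = 1 / ((T + 1 : ℕ) : ℝ) from rfl, e2, e3, e5, e7, e42]
    exact scale_aux _ hne k _ _
  have hlim : ∀ (a b c : ℝ), Filter.Tendsto (fun T => ∑ j, H a b c (S T j) ^ 2) Filter.atTop
      (nhds (28 ^ k * G a b c 0)) := by
    intro a b c
    apply limit_coeff (7 * (k + 21)) (by omega) (28 ^ k * G a b c 0) N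
      (fun T j => MvPolynomial.aeval (curve a b c) (S T j)) (hdeg a b c)
    intro t
    simp only [hval]
    have h1 := tendsto_R k ![a * t ^ 3, b * t ^ 5, c * t ^ 7]
    have h2 : 28 ^ k * G (![a * t ^ 3, b * t ^ 5, c * t ^ 7] 0) (![a * t ^ 3, b * t ^ 5, c * t ^ 7] 1)
        (![a * t ^ 3, b * t ^ 5, c * t ^ 7] 2) 0 = 28 ^ k * G a b c 0 * t ^ 42 := by
      simp only [Matrix.cons_val_zero, Matrix.cons_val_one, Matrix.cons_val, G]
      ring
    rw [h2] at h1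
    exact h1
  -- contradiction
  have hz : ∀ a b c : ℝ, G a b c 0 = 0 → Filter.Tendsto (fun T => ∑ j, H a b c (S T j) ^ 2)
      Filter.atTop (nhds 0) := by
    intro a b c h
    have := hlim a b c
    rwa [h, mul_zero] at this
  have z1 := hz 1 1 1 (by norm_num [G])
  have z2 := hz 1 1 (-1) (by norm_num [G])
  have z3 := hz 1 (-1) 1 (by norm_num [G])
  have z4 := hz 1 (-1) (-1) (by norm_num [G])
  have z5 := hz (-1) 1 1 (by norm_num [G])
  have z6 := hz (-1) 1 (-1) (by norm_num [G])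
  have z7 := hz (-1) (-1) 1 (by norm_num [G])
  have z8 := hz (-1) (-1) (-1) (by norm_num [G])
  have z0 := hlim 1 0 0
  have hsum := ((((((z1.add z2).add z3).add z4).add z5).add z6).add z7).add z8
  have hle := le_of_tendsto_of_tendsto' (z0.const_mul 8) hsum (fun T => by
    rw [Finset.mul_sum, ← Finset.sum_add_distrib, ← Finset.sum_add_distrib,
      ← Finset.sum_add_distrib, ← Finset.sum_add_distrib, ← Finset.sum_add_distrib,
      ← Finset.sum_add_distrib, ← Finset.sum_add_distrib]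
    exact Finset.sum_le_sum fun j _ => H_bound (S T j))
  have hpos : (0 : ℝ) < 28 ^ k := by positivity
  norm_num [G] at hle
  linarith

end Pool.Agent.Results.MP_2f3180_ag.SosNegative
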